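import Mathlib
import Pool.Agent.Q52.DensNull

/-!
# Lower densities need not be homogeneous

For each of the three domains (all integers, natural numbers, positive integers) there is a
(monotone) upper density whose lower dual is not `(-1)`-homogeneous.
-/

namespace Pool.Agent.Results.MP_1da4e9_nt.NotHomogeneous

/-- `k · X + h`. -/
def affineImage (k h : ℕ) (X : Set ℤ) : Set ℤ := (fun x : ℤ => (k : ℤ) * x + (h : ℤ)) '' X

/-- `μ` (restricted to the subsets of `H`) is an upper quasi-density on `H ⊆ ℤ`: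
(F1), (F3), (F4 flat) and `μ ≤ 1`. -/
structure IsUpperQuasiDensity (H : Set ℤ) (μ : Set ℤ → ℝ) : Prop where
  total : μ H = 1
  subadd : ∀ X Y : Set ℤ, X ⊆ H → Y ⊆ H → μ (X ∪ Y) ≤ μ X + μ Y
  affine : ∀ X : Set ℤ, X ⊆ H → ∀ h k : ℕ, 0 < h → 0 < k →
    μ (affineImage k h X) = 1 / (k : ℝ) * μ X
  le_one : ∀ X : Set ℤ, X ⊆ H → μ X ≤ 1

/-- `μ` is an upper density on `H`: an upper quasi-density which is monotone. -/
structure IsUpperDensity (H : Set ℤ) (μ : Set ℤ → ℝ) : Prop extends
    IsUpperQuasiDensity H μ where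
  mono : ∀ X Y : Set ℤ, X ⊆ Y → Y ⊆ H → μ X ≤ μ Y

/-- The lower dual of `μ` on `H`. -/
def lowerDual (H : Set ℤ) (μ : Set ℤ → ℝ) (X : Set ℤ) : ℝ := 1 - μ (H \ X)

open Pool.Agent.Q52.Dens

/-- the quadratic mean of two numbers. -/
noncomputable def qm (a b : ℝ) : ℝ := √((a ^ 2 + b ^ 2) / 2)

theorem qm_mono {a b c d : ℝ} (ha : 0 ≤ a) (hb : 0 ≤ b) (hac : a ≤ c) (hbd : b ≤ d) :
    qm a b ≤ qm c d := by
  unfold qm
  apply Real.sqrt_le_sqrt
  have h1 : a ^ 2 ≤ c ^ 2 := by gcongr
  have h2 : b ^ 2 ≤ d ^ 2 := by gcongr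
  linarith

theorem qm_add (a b c d : ℝ) (ha : 0 ≤ a) (hb : 0 ≤ b) (hc : 0 ≤ c) (hd : 0 ≤ d) :
    qm (a + c) (b + d) ≤ qm a b + qm c d := by
  unfold qm
  have h1 : 0 ≤ (a ^ 2 + b ^ 2) / 2 := by positivity
  have h2 : 0 ≤ (c ^ 2 + d ^ 2) / 2 := by positivity
  rw [Real.sqrt_le_left (by positivity)]
  have h3 : (a * c + b * d) / 2 ≤ √((a ^ 2 + b ^ 2) / 2) * √((c ^ 2 + d ^ 2) / 2) := by
    rw [← Real.sqrt_mul h1]
    apply Real.le_sqrt_of_sq_le
    nlinarith [sq_nonneg (a * d - b * c)]
  nlinarith [Real.sq_sqrt h1, Real.sq_sqrt h2]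

theorem qm_scale (k a b : ℝ) (hk : 0 ≤ k) : qm (k * a) (k * b) = k * qm a b := by
  unfold qm
  have : ((k * a) ^ 2 + (k * b) ^ 2) / 2 = k ^ 2 * ((a ^ 2 + b ^ 2) / 2) := by ring
  rw [this, Real.sqrt_mul (by positivity), Real.sqrt_sq hk]

/-- the upper density used. -/
noncomputable def mu (X : Set ℤ) : ℝ := qm (lowB X) (buck X)

theorem mu_density (H : Set ℤ) (hH : ∀ x : ℤ, 0 < x → x ∈ H) : IsUpperDensity H mu where
  total := by
    have h1 := lowB_eq_one H hH
    have h2 : buck H = 1 := le_antisymm (buck_le_one H) (h1 ▸ lowB_le_buck H)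
    unfold mu qm
    rw [h1, h2]
    norm_num
  subadd := by
    intro X Y _ _
    unfold mu
    refine le_trans ?_ (qm_add _ _ _ _ (lowB_nonneg X) (buck_nonneg X) (lowB_nonneg Y)
      (buck_nonneg Y))
    exact qm_mono (lowB_nonneg _) (buck_nonneg _) (lowB_union_le X Y) (buck_union_le X Y)
  affine := by
    intro X _ h k _ hk
    unfold mu
    have h1 : lowB (affineImage k h X) = 1 / (k : ℝ) * lowB X := lowB_aff k hk h X
    have h2 : buck (affineImage k h X) = 1 / (k : ℝ) * buck X := buck_aff k hk h X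
    rw [h1, h2, qm_scale _ _ _ (by positivity)]
  le_one := by
    intro X _
    have := qm_mono (lowB_nonneg X) (buck_nonneg X) (lowB_le_one X) (buck_le_one X)
    refine this.trans ?_
    unfold qm
    norm_num
  mono := by
    intro X Y hXY _
    exact qm_mono (lowB_nonneg _) (buck_nonneg _) (lowB_mono hXY) (buck_mono hXY)

theorem mu_sparse : mu sparse = √(1 / 2) := by
  have h1 : lowB sparse = 0 := by
    apply le_antisymm _ (lowB_nonneg _)
    have := lowB_le sparse sparse sparse_null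
    rw [Set.sdiff_self] at this
    have h0 : buck ∅ ≤ 0 := by
      have := buck_le ∅ Nat.one_pos
      simpa [rc, res] using this
    exact this.trans h0
  have h2 : buck sparse = 1 := buck_eq_one sparse sparse_res
  unfold mu qm
  rw [h1, h2]
  norm_num

/-- Q1: on each of the three domains there is an upper density whose lower dual is not
`(-1)`-homogeneous. -/
theorem result (H : Set ℤ)
    (hH : H = Set.univ ∨ H = {n : ℤ | 0 ≤ n} ∨ H = {n : ℤ | 0 < n}) :
    ∃ μ : Set ℤ → ℝ, IsUpperDensity H μ ∧ ∃ X : Set ℤ, X ⊆ H ∧ ∃ k : ℕ, 0 < k ∧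
      lowerDual H μ (affineImage k 0 X) ≠ 1 / (k : ℝ) * lowerDual H μ X := by
  have hpos : ∀ x : ℤ, 0 < x → x ∈ H := by
    intro x hx
    rcases hH with rfl | rfl | rfl
    · trivial
    · exact hx.le
    · exact hx
  have hhalf : ∀ x : ℤ, 2 * x ∈ H → x ∈ H := by
    intro x hx
    rcases hH with rfl | rfl | rfl
    · trivial
    · have : (0 : ℤ) ≤ 2 * x := hx
      show (0 : ℤ) ≤ x
      omega
    · have : (0 : ℤ) < 2 * x := hx
      show (0 : ℤ) < x
      omega
  refine ⟨mu, mu_density H hpos, H \ sparse, Set.sdiff_subset, 2, by norm_num, ?_⟩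
  have hs : H \ (H \ sparse) = sparse := by
    rw [Set.sdiff_sdiff_right_self]
    exact Set.inter_eq_right.2 fun x hx => hpos x (sparse_pos hx)
  have hX : lowerDual H mu (H \ sparse) = 1 - √(1 / 2) := by
    unfold lowerDual
    rw [hs, mu_sparse]
  have hE : lowerDual H mu (affineImage 2 0 (H \ sparse)) = 1 - √(5 / 8) := by
    unfold lowerDual
    congr 1
    set E : Set ℤ := H \ affineImage 2 0 (H \ sparse) with hEdef
    have hodd : ∀ x : ℤ, x ∈ H → x % 2 = 1 → x ∈ E := by
      intro x hx hx2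
      refine ⟨hx, ?_⟩
      rintro ⟨y, -, rfl⟩
      push_cast at hx2
      omega
    have hdbl : ∀ x : ℤ, x ∈ sparse → 2 * x ∈ E := by
      intro x hx
      refine ⟨hpos _ (by have := sparse_pos hx; omega), ?_⟩
      rintro ⟨y, ⟨-, hy⟩, hyx⟩
      apply hy
      have : y = x := by
        simp only at hyx
        push_cast at hyx
        omega
      rw [this]; exact hx
    have h2 : buck E = 1 := by
      apply buck_eq_one
      intro m hm r
      have hm' : (0 : ℤ) < m := by exact_mod_cast hm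
      rcases Int.emod_two_eq_zero_or_one r with hr | hr
      · obtain ⟨x, hx, hxr⟩ := sparse_res m hm (r / 2)
        refine ⟨2 * x, hdbl x hx, ?_⟩
        have : (x : ℤ) ≡ r / 2 [ZMOD m] := hxr
        have h3 : 2 * x ≡ 2 * (r / 2) [ZMOD m] := this.mul_left 2
        have h4 : 2 * (r / 2) = r := by omega
        rw [h4] at h3
        exact h3
      · have hr0 := Int.emod_nonneg r (show (2 * m : ℤ) ≠ 0 by positivity)
        refine ⟨r % (2 * m) + 2 * m, hodd _ (hpos _ (by positivity)) ?_, ?_⟩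
        · have h5 : (r % (2 * m)) % 2 = r % 2 := Int.emod_emod_of_dvd _ (dvd_mul_right _ _)
          omega
        · have h6 : r % (2 * (m : ℤ)) + 2 * m = r % (2 * (m : ℤ)) + 2 * m := rfl
          rw [Int.add_mul_emod_self_right, Int.emod_emod_of_dvd _ (dvd_mul_left _ _)]
    have h1 : lowB E = 1 / 2 := by
      apply le_antisymm
      · have hnull : IsNull (aff 2 0 sparse) := sparse_null.aff 2 (by norm_num) 0
        refine (lowB_le E _ hnull).trans ?_
        refine (buck_le _ (by norm_num : 0 < 2)).trans ?_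
        have : res 2 (E \ aff 2 0 sparse) ⊆ {1} := by
          rintro _ ⟨x, ⟨⟨hxH, hxn⟩, hxs⟩, rfl⟩
          show x % ((2 : ℕ) : ℤ) = 1
          push_cast
          by_contra hne
          have hx0 : x % 2 = 0 := by omega
          have hx2 : x = 2 * (x / 2) := by omega
          have hxH2 : x / 2 ∈ H := hhalf _ (hx2 ▸ hxH)
          by_cases hsp : x / 2 ∈ sparse
          · apply hxs
            refine ⟨x / 2, hsp, ?_⟩
            show ((2 : ℕ) : ℤ) * (x / 2) + 0 = x
            push_cast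
            omega
          · apply hxn
            refine ⟨x / 2, ⟨hxH2, hsp⟩, ?_⟩
            show ((2 : ℕ) : ℤ) * (x / 2) + ((0 : ℕ) : ℤ) = x
            push_cast
            omega
        have h3 : rc 2 (E \ aff 2 0 sparse) ≤ 1 := by
          unfold rc
          calc _ ≤ ({1} : Set ℤ).ncard := Set.ncard_le_ncard this (Set.finite_singleton _)
            _ = 1 := Set.ncard_singleton _
        have h4 : (rc 2 (E \ aff 2 0 sparse) : ℝ) ≤ 1 := by exact_mod_cast h3
        push_cast
        linarith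
      · have hP : aff 2 1 {n : ℤ | 0 < n} ⊆ E := by
          rintro _ ⟨x, hx, rfl⟩
          have hx' : (0 : ℤ) < x := hx
          apply hodd
          · apply hpos
            push_cast
            omega
          · push_cast
            omega
        have h3 := lowB_mono hP
        have hone : lowB {n : ℤ | 0 < n} = 1 := lowB_eq_one _ (fun x hx => hx)
        rw [lowB_aff 2 (by norm_num) 1, hone] at h3
        push_cast at h3
        linarith
    unfold mu qm
    rw [h1, h2]
    norm_num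
  rw [hE, hX]
  intro heq
  push_cast at heq
  have ha : 0 ≤ √(1 / 2 : ℝ) := Real.sqrt_nonneg _
  have ha2 : √(1 / 2 : ℝ) ^ 2 = 1 / 2 := Real.sq_sqrt (by norm_num)
  have hb2 : √(5 / 8 : ℝ) ^ 2 = 5 / 8 := Real.sq_sqrt (by norm_num)
  have hb : √(5 / 8 : ℝ) = 1 / 2 + √(1 / 2 : ℝ) / 2 := by linarith
  rw [hb] at hb2
  have h3 : √(1 / 2 : ℝ) = 1 / 2 := by nlinarith
  rw [h3] at ha2
  norm_num at ha2

end Pool.Agent.Results.MP_1da4e9_nt.NotHomogeneous
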