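import Mathlib
import Pool.Agent.Q52.DensNull

/-!
# Translation invariance of lower quasi-densities

On the integers every lower quasi-density is translation invariant; on the natural numbers and on
the positive integers there are lower quasi-densities that are not translation invariant.
-/

namespace Pool.Agent.Results.MP_1da4e9_nt.TranslationInvariance

/-- `k · X + h`. -/
def affineImage (k h : ℕ) (X : Set ℤ) : Set ℤ := (fun x : ℤ => (k : ℤ) * x + (h : ℤ)) '' X

/-- `μ` (restricted to the subsets of `H`) is an upper quasi-density on `H ⊆ ℤ`: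
(F1), (F3), (F4 flat) and `μ ≤ 1`. -/
structure IsUpperQuasiDensity (H : Set ℤ) (μ : Set ℤ → ℝ) : Prop where
  total : μ H = 1
  subadd : ∀ X Y : Set ℤ, X ⊆ H → Y ⊆ H → μ (X ∪ Y) ≤ μ X + μ Y
  affine : ∀ X : Set ℤ, X ⊆ H → ∀ h k : ℕ, 0 < h → 0 < k →
    μ (affineImage k h X) = 1 / (k : ℝ) * μ X
  le_one : ∀ X : Set ℤ, X ⊆ H → μ X ≤ 1

/-- The lower dual of `μ` on `H`. -/
def lowerDual (H : Set ℤ) (μ : Set ℤ → ℝ) (X : Set ℤ) : ℝ := 1 - μ (H \ X)

open Pool.Agent.Q52.Dens

/-- the set `{e} ∪ (sparse + 1)`. -/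
def W (e : ℤ) : Set ℤ := {e} ∪ aff 1 1 sparse

/-- the family of all sets rationally affinely equivalent to `W e`. -/
def Fam (e : ℤ) (P : Set ℤ) : Prop :=
  ∃ a c : ℕ, 0 < a ∧ 0 < c ∧ ∃ b d : ℤ, aff a b P = aff c d (W e)

open Classical in
/-- zero on the family, Buck density elsewhere. -/
noncomputable def phi (e : ℤ) (P : Set ℤ) : ℝ := if Fam e P then 0 else buck P

theorem phi_nonneg (e : ℤ) (P : Set ℤ) : 0 ≤ phi e P := by
  unfold phi
  split_ifs
  · exact le_refl _
  · exact buck_nonneg P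

theorem aff_aff (k k' : ℕ) (h h' : ℤ) (X : Set ℤ) :
    aff k h (aff k' h' X) = aff (k * k') (k * h' + h) X := by
  unfold aff
  rw [Set.image_image]
  apply Set.image_congr
  intro x _
  push_cast
  ring

theorem fam_aff (e : ℤ) (k : ℕ) (hk : 0 < k) (h : ℤ) (P : Set ℤ) :
    Fam e (aff k h P) ↔ Fam e P := by
  constructor
  · rintro ⟨a, c, ha, hc, b, d, hP⟩
    rw [aff_aff] at hP
    exact ⟨a * k, c, Nat.mul_pos ha hk, hc, _, d, hP⟩
  · rintro ⟨a, c, ha, hc, b, d, hP⟩
    refine ⟨a, k * c, ha, Nat.mul_pos hk hc, k * b - a * h, k * d, ?_⟩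
    have h1 := congrArg (aff k 0) hP
    rw [aff_aff, aff_aff] at h1
    rw [aff_aff]
    have h2 : aff (a * k) (a * h + (k * b - a * h)) P = aff (k * a) (k * b + 0) P := by
      congr 1
      · ring
      · ring
    rw [h2, h1]
    congr 1
    ring

theorem phi_aff (e : ℤ) (k : ℕ) (hk : 0 < k) (h : ℤ) (P : Set ℤ) :
    phi e (aff k h P) = 1 / (k : ℝ) * phi e P := by
  unfold phi
  by_cases hP : Fam e P
  · rw [if_pos hP, if_pos ((fam_aff e k hk h P).2 hP)]
    simp
  · rw [if_neg hP, if_neg (fun hh => hP ((fam_aff e k hk h P).1 hh)), buck_aff k hk h]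

theorem single_null (e : ℤ) : IsNull {e} := by
  intro ε hε
  obtain ⟨N, hN⟩ := exists_nat_ge (1 / ε)
  refine ⟨N, fun n hn => ?_⟩
  have h1 : cnt {e} n ≤ 1 := by
    unfold cnt
    calc _ ≤ ({e} : Set ℤ).ncard :=
          Set.ncard_le_ncard Set.inter_subset_left (Set.finite_singleton _)
      _ = 1 := Set.ncard_singleton _
  have h2 : (cnt {e} n : ℝ) ≤ 1 := by exact_mod_cast h1
  have h3 : (N : ℝ) ≤ n := by exact_mod_cast hn
  have h4 : 1 / ε ≤ n := hN.trans h3
  rw [div_le_iff₀ hε] at h4
  linarith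

theorem fam_null (e : ℤ) (P : Set ℤ) (hP : Fam e P) : IsNull P := by
  obtain ⟨a, c, ha, hc, b, d, hP⟩ := hP
  have hW : IsNull (W e) := (single_null e).union (sparse_null.aff 1 Nat.one_pos 1)
  have h1 : IsNull (aff a b P) := hP ▸ hW.aff c hc d
  refine (h1.preimage a ha b).mono ?_
  intro x hx
  exact ⟨x, hx, rfl⟩

theorem lowB_null (P : Set ℤ) (hP : IsNull P) : lowB P = 0 := by
  apply le_antisymm _ (lowB_nonneg _)
  have := lowB_le P P hP
  rw [Set.sdiff_self] at this
  have h0 : buck ∅ ≤ 0 := by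
    have := buck_le ∅ Nat.one_pos
    simpa [rc, res] using this
  exact this.trans h0

theorem lowB_le_phi (e : ℤ) (P : Set ℤ) : lowB P ≤ phi e P := by
  unfold phi
  split_ifs with hP
  · exact (lowB_null P (fam_null e P hP)).le
  · exact lowB_le_buck P

theorem subadd_list (ψ : Set ℤ → ℝ) (h0 : ψ ∅ ≤ 0)
    (hs : ∀ X Y : Set ℤ, ψ (X ∪ Y) ≤ ψ X + ψ Y) (L : List (Set ℤ)) :
    ψ (⋃ P ∈ L, P) ≤ (L.map ψ).sum := by
  induction L with
  | nil => simpa using h0
  | cons P L ih =>
    have : (⋃ Q ∈ P :: L, Q) = P ∪ ⋃ Q ∈ L, Q := by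
      ext x
      simp
    rw [this, List.map_cons, List.sum_cons]
    exact (hs _ _).trans (by linarith)

theorem buck_empty : buck ∅ ≤ 0 := by
  have := buck_le ∅ Nat.one_pos
  simpa [rc, res] using this

theorem lowB_empty : lowB ∅ ≤ 0 := (lowB_le_buck ∅).trans buck_empty

theorem sum_le_sum {φ ψ : Set ℤ → ℝ} (L : List (Set ℤ)) (h : ∀ P ∈ L, φ P ≤ ψ P) :
    (L.map φ).sum ≤ (L.map ψ).sum := List.sum_le_sum h

theorem cov_total (e : ℤ) (H : Set ℤ) (hH : ∀ x : ℤ, 0 < x → x ∈ H) :
    cov (phi e) H = 1 := by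
  apply le_antisymm
  · refine (cov_le_self (phi_nonneg e) H).trans ?_
    unfold phi
    split_ifs
    · exact zero_le_one
    · exact buck_le_one H
  · apply le_cov
    intro L hL
    have h1 := subadd_list lowB lowB_empty lowB_union_le L
    rw [hL, lowB_eq_one H hH] at h1
    exact h1.trans (sum_le_sum L fun P _ => lowB_le_phi e P)

/-- rigidity of `sparse`. -/
theorem rigid (e : ℤ) (he : e ≤ 1) (P : Set ℤ) (hP : P ⊆ sparse) : ¬ Fam e P := by
  rintro ⟨a, c, ha, hc, b, d, hE⟩
  have ha' : (1 : ℤ) ≤ a := by exact_mod_cast ha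
  have hc' : (1 : ℤ) ≤ c := by exact_mod_cast hc
  have hmem : ∀ w ∈ W e, ∃ j : ℕ, 1 ≤ j ∧ (c : ℤ) * w + d = a * ((j.factorial : ℤ) + j) + b := by
    intro w hw
    have h1 : (c : ℤ) * w + d ∈ aff a b P := by
      rw [hE]; exact ⟨w, hw, rfl⟩
    obtain ⟨x, hx, hxe⟩ := h1
    obtain ⟨j, hj, rfl⟩ := hP hx
    refine ⟨j, hj, ?_⟩
    simp only at hxe
    push_cast at hxe
    linarith
  have hn : ∀ n : ℕ, 1 ≤ n → ∃ j : ℕ, 1 ≤ j ∧
      (c : ℤ) * ((n.factorial : ℤ) + n) + (c + d - b) = a * ((j.factorial : ℤ) + j) := by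
    intro n hn
    obtain ⟨j, hj, h1⟩ := hmem ((n.factorial : ℤ) + n + 1)
      (Or.inr ⟨((n.factorial + n : ℕ) : ℤ), ⟨n, hn, rfl⟩, by push_cast; ring⟩)
    refine ⟨j, hj, ?_⟩
    linarith
  obtain ⟨g, hg⟩ : ∃ g : ℤ, g = c + d - b := ⟨_, rfl⟩
  rw [← hg] at hn
  -- for large `n` we have `j = n`
  have hlarge : ∀ n : ℕ, 2 * c + 2 * a + g.natAbs + 1 ≤ n →
      (c : ℤ) * ((n.factorial : ℤ) + n) + g = a * ((n.factorial : ℤ) + n) := by
    intro n hnl
    obtain ⟨j, hj, h1⟩ := hn n (by omega)
    have hgn : |g| ≤ g.natAbs := by rw [Int.natCast_natAbs]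
    have hnl' : 2 * (c : ℤ) + 2 * a + |g| + 1 ≤ n := by
      have : ((2 * c + 2 * a + g.natAbs + 1 : ℕ) : ℤ) ≤ n := by exact_mod_cast hnl
      push_cast at this
      exact this
    have hg0 := abs_nonneg g
    have hg1 := le_abs_self g
    have hg2 := neg_abs_le g
    have hf1 : (1 : ℤ) ≤ n.factorial := by exact_mod_cast Nat.factorial_pos n
    have hf2 : (n : ℤ) ≤ n.factorial := by exact_mod_cast Nat.self_le_factorial n
    rcases lt_trichotomy j n with hlt | heq | hgt
    · exfalso
      obtain ⟨m, rfl⟩ := Nat.exists_eq_succ_of_ne_zero (by omega : n ≠ 0)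
      have hj2 : (j.factorial : ℤ) ≤ m.factorial := by
        exact_mod_cast Nat.factorial_le (by omega : j ≤ m)
      have hj3 : (j : ℤ) ≤ j.factorial := by exact_mod_cast Nat.self_le_factorial j
      have hm1 : (1 : ℤ) ≤ m.factorial := by exact_mod_cast Nat.factorial_pos m
      have hfs : ((m.succ.factorial : ℕ) : ℤ) = (m + 1) * m.factorial := by
        rw [Nat.succ_eq_add_one, Nat.factorial_succ]; push_cast; ring
      have hu : a * ((j.factorial : ℤ) + j) ≤ a * (2 * m.factorial) := by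
        apply mul_le_mul_of_nonneg_left _ (by linarith)
        linarith
      have hl : ((m.succ.factorial : ℕ) : ℤ) - |g| ≤ a * ((j.factorial : ℤ) + j) := by
        rw [← h1]
        have : (0 : ℤ) ≤ ((m.succ : ℕ) : ℤ) := by positivity
        nlinarith
      rw [hfs] at hl
      push_cast at hnl'
      nlinarith
    · rw [heq] at h1; exact h1
    · exfalso
      have hj2 : (((n + 1).factorial : ℕ) : ℤ) ≤ j.factorial := by
        exact_mod_cast Nat.factorial_le (by omega : n + 1 ≤ j)
      have hfs : (((n + 1).factorial : ℕ) : ℤ) = (n + 1) * n.factorial := by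
        rw [Nat.factorial_succ]; push_cast; ring
      rw [hfs] at hj2
      have hu : (n + 1) * (n.factorial : ℤ) ≤ a * ((j.factorial : ℤ) + j) := by
        have : (0 : ℤ) ≤ j := by positivity
        have h0 : (0 : ℤ) ≤ j.factorial := by positivity
        nlinarith
      rw [← h1] at hu
      have hl : (c : ℤ) * ((n.factorial : ℤ) + n) ≤ c * (2 * n.factorial) := by
        apply mul_le_mul_of_nonneg_left _ (by linarith)
        linarith
      have hl2 : |g| ≤ |g| * n.factorial := by nlinarith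
      nlinarith
  obtain ⟨n0, hn0⟩ : ∃ n0 : ℕ, n0 = 2 * c + 2 * a + g.natAbs + 1 := ⟨_, rfl⟩
  have e1 := hlarge n0 (by omega)
  have e2 := hlarge (n0 + 1) (by omega)
  have hfs : (((n0 + 1).factorial : ℕ) : ℤ) = (n0 + 1) * n0.factorial := by
    rw [Nat.factorial_succ]; push_cast; ring
  have hf1 : (1 : ℤ) ≤ n0.factorial := by exact_mod_cast Nat.factorial_pos n0
  have hac : (c : ℤ) = a := by
    rw [hfs] at e2
    push_cast at e2
    have h3 : ((c : ℤ) - a) * (n0 * n0.factorial + 1) = 0 := by linear_combination e2 - e1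
    rcases mul_eq_zero.1 h3 with h4 | h4
    · linarith
    · exfalso
      have : (0 : ℤ) ≤ n0 * n0.factorial := by positivity
      linarith
  have hg0 : g = 0 := by
    rw [hac] at e1
    linarith
  obtain ⟨j, hj, h1⟩ := hmem e (Or.inl rfl)
  have hj1 : (1 : ℤ) ≤ j := by exact_mod_cast hj
  have hj0 : (1 : ℤ) ≤ j.factorial := by exact_mod_cast Nat.factorial_pos j
  have h2 : b = c + d := by linarith
  rw [h2, ← hac] at h1
  have h3 : (c : ℤ) * ((j.factorial : ℤ) + j + 1 - e) = 0 := by linarith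
  rcases mul_eq_zero.1 h3 with h4 | h4
  · linarith
  · linarith

theorem cov_sparse (e : ℤ) (he : e ≤ 1) : 1 ≤ cov (phi e) sparse := by
  apply le_cov
  intro L hL
  have h1 := subadd_list buck buck_empty buck_union_le L
  rw [hL, buck_eq_one sparse sparse_res] at h1
  refine h1.trans (sum_le_sum L fun P hP => ?_)
  have : P ⊆ sparse := by
    intro x hx
    rw [← hL]
    exact Set.mem_biUnion hP hx
  unfold phi
  rw [if_neg (rigid e he P this)]

theorem main (H : Set ℤ) (e : ℤ) (he : e ≤ 1)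
    (hH : H = {n : ℤ | e ≤ n}) :
    ∃ μ : Set ℤ → ℝ, IsUpperQuasiDensity H μ ∧ ∃ X : Set ℤ, X ⊆ H ∧ ∃ h : ℕ,
      lowerDual H μ (affineImage 1 h X) ≠ lowerDual H μ X := by
  have hpos : ∀ x : ℤ, 0 < x → x ∈ H := by
    intro x hx
    rw [hH]
    show e ≤ x
    omega
  refine ⟨cov (phi e), ⟨cov_total e H hpos, ?_, ?_, ?_⟩, H \ sparse, Set.sdiff_subset, 1, ?_⟩
  · intro X Y _ _
    exact cov_union_le (phi_nonneg e) X Y
  · intro X _ h k _ hk
    exact cov_aff (phi_nonneg e) k hk h X fun A _ => phi_aff e k hk h A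
  · intro X _
    refine (cov_le_self (phi_nonneg e) X).trans ?_
    unfold phi
    split_ifs
    · exact zero_le_one
    · exact buck_le_one X
  · have hs : H \ (H \ sparse) = sparse := by
      rw [Set.sdiff_sdiff_right_self]
      exact Set.inter_eq_right.2 fun x hx => hpos x (sparse_pos hx)
    have hW : H \ affineImage 1 1 (H \ sparse) = W e := by
      ext x
      constructor
      · rintro ⟨hxH, hx⟩
        rw [hH] at hxH
        have hxe : e ≤ x := hxH
        rcases hxe.eq_or_lt with h1 | h1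
        · left; exact h1.symm
        · right
          refine ⟨x - 1, ?_, by simp⟩
          by_contra hns
          apply hx
          refine ⟨x - 1, ⟨?_, hns⟩, by simp⟩
          rw [hH]
          show e ≤ x - 1
          omega
      · rintro (hx | ⟨y, hy, rfl⟩)
        · have hxe : x = e := hx
          subst hxe
          refine ⟨?_, ?_⟩
          · rw [hH]
            show x ≤ x
            exact le_refl x
          · rintro ⟨y, ⟨hyH, -⟩, hyx⟩
            rw [hH] at hyH
            have h1 : x ≤ y := hyH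
            simp only [Nat.cast_one, one_mul] at hyx
            omega
        · refine ⟨hpos _ ?_, ?_⟩
          · have := sparse_pos hy
            push_cast
            omega
          · rintro ⟨z, ⟨-, hz⟩, hzy⟩
            apply hz
            have : z = y := by
              simp only [Nat.cast_one, one_mul] at hzy
              omega
            rw [this]; exact hy
    unfold lowerDual
    rw [hs, hW]
    have h1 := cov_sparse e he
    have h2 : cov (phi e) (W e) ≤ 0 := by
      refine (cov_le_self (phi_nonneg e) _).trans ?_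
      unfold phi
      rw [if_pos ⟨1, 1, Nat.one_pos, Nat.one_pos, 0, 0, rfl⟩]
    intro h3
    linarith

/-- Q2: every lower quasi-density on the integers is translation invariant, whereas on the natural
numbers and on the positive integers some lower quasi-density is not translation invariant. -/
theorem result :
    (∀ μ : Set ℤ → ℝ, IsUpperQuasiDensity Set.univ μ → ∀ (X : Set ℤ) (h : ℕ),
      lowerDual Set.univ μ (affineImage 1 h X) = lowerDual Set.univ μ X) ∧
    (∀ H : Set ℤ, (H = {n : ℤ | 0 ≤ n} ∨ H = {n : ℤ | 0 < n}) →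
      ∃ μ : Set ℤ → ℝ, IsUpperQuasiDensity H μ ∧ ∃ X : Set ℤ, X ⊆ H ∧ ∃ h : ℕ,
        lowerDual H μ (affineImage 1 h X) ≠ lowerDual H μ X) := by
  refine ⟨?_, ?_⟩
  · intro μ hμ X h
    rcases Nat.eq_zero_or_pos h with rfl | hh
    · have : affineImage 1 0 X = X := by
        unfold affineImage
        simp
      rw [this]
    · unfold lowerDual
      have h1 : Set.univ \ affineImage 1 h X = affineImage 1 h (Set.univ \ X) := by
        rw [← Set.compl_eq_univ_sdiff, ← Set.compl_eq_univ_sdiff]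
        unfold affineImage
        symm
        apply Set.image_compl_eq
        refine ⟨aff_injective 1 Nat.one_pos h, fun y => ⟨y - h, by simp⟩⟩
      rw [h1, hμ.affine _ (Set.subset_univ _) h 1 hh Nat.one_pos]
      simp
  · rintro H (hH | hH)
    · exact main H 0 zero_le_one hH
    · refine main H 1 (le_refl _) ?_
      rw [hH]
      ext x
      show 0 < x ↔ 1 ≤ x
      omega

end Pool.Agent.Results.MP_1da4e9_nt.TranslationInvariance
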